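import Pool.Agent.Helper693.PW.Defs

set_option autoImplicit false

/-! Puder-Wu (MP_dab459_al), embedding `F_N → F_{N+1}` (helper192). -/

namespace PW

variable {N : ℕ}

/-- the letter `x` of `F_N` as a letter of `F_{N+1}` -/
def emb (x : Z N) : Z (N + 1) := (x.1.castSucc, x.2)

/-- a word of `F_N` as a word of `F_{N+1}` -/
def embL (L : List (Z N)) : List (Z (N + 1)) := L.map emb

/-- `F_N → F_{N+1}` -/
def embF : FreeGroup (Fin N) →* FreeGroup (Fin (N + 1)) := FreeGroup.map Fin.castSucc

/-- the retraction `F_{N+1} → F_N` killing the last letter -/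
def retF : FreeGroup (Fin (N + 1)) →* FreeGroup (Fin N) :=
  FreeGroup.lift (fun i => if h : (i : ℕ) < N then FreeGroup.of ⟨i, h⟩ else 1)

theorem emb_injective : Function.Injective (emb : Z N → Z (N + 1)) := by
  intro x y h
  simp only [emb, Prod.mk.injEq, Fin.castSucc_inj] at h
  exact Prod.ext h.1 h.2

@[simp] theorem emb_inj {x y : Z N} : emb x = emb y ↔ x = y := emb_injective.eq_iff

theorem inv_emb (x : Z N) : inv (emb x) = emb (inv x) := rfl

theorem emb_fst_ne_last (x : Z N) : (emb x).1 ≠ Fin.last N := by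
  simp [emb, Fin.castSucc_ne_last]

theorem mk_embL (L : List (Z N)) : FreeGroup.mk (embL L) = embF (FreeGroup.mk L) := by
  simp only [embL, embF, FreeGroup.map.mk]
  rfl

theorem retF_embF (x : FreeGroup (Fin N)) : retF (embF x) = x := by
  have h : (retF.comp embF : FreeGroup (Fin N) →* FreeGroup (Fin N)) = MonoidHom.id _ := by
    apply FreeGroup.ext_hom
    intro a
    simp [retF, embF]
  exact DFunLike.congr_fun h x

theorem embF_injective : Function.Injective (embF : FreeGroup (Fin N) →* FreeGroup (Fin (N + 1))) :=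
  Function.LeftInverse.injective retF_embF

theorem length_embL (L : List (Z N)) : (embL L).length = L.length := by simp [embL]

theorem turns_embL (L : List (Z N)) :
    turns (embL L) = (turns L).map (Prod.map emb emb) := by
  unfold turns embL
  rw [List.map_map, ← List.map_rotate, List.zip_eq_zipWith, List.zip_eq_zipWith,
    List.map_zipWith, List.zipWith_map_left, List.zipWith_map_left, List.zipWith_map_right]
  rfl

theorem tight_embL {L : List (Z N)} : Tight (embL L) ↔ Tight L := by
  unfold Tight
  rw [turns_embL]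
  simp only [List.mem_map, forall_exists_index, and_imp]
  constructor
  · intro h t ht he
    exact h _ t ht rfl (by simp [he])
  · rintro h _ t ht rfl
    simpa using h t ht

/-- the half-edges of `F_N` in a set of half-edges of `F_{N+1}` -/
def pull (A : Finset (Z (N + 1))) : Finset (Z N) := Finset.univ.filter (fun x => emb x ∈ A)

@[simp] theorem mem_pull {A : Finset (Z (N + 1))} {x : Z N} : x ∈ pull A ↔ emb x ∈ A := by
  simp [pull]

theorem tn_embL (L : List (Z N)) (A C : Finset (Z (N + 1))) :
    tn (embL L) A C = tn L (pull A) (pull C) := by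
  unfold tn
  rw [turns_embL, List.countP_map]
  congr 1
  funext t
  simp

theorem cap_embL (L : List (Z N)) (A : Finset (Z (N + 1))) :
    cap (embL L) A = cap L (pull A) := by
  unfold cap
  rw [tn_embL]
  congr 1
  ext x
  simp

theorem deg_embL (L : List (Z N)) (i : Fin N) : deg (embL L) i.castSucc = deg L i := by
  unfold deg embL
  rw [List.countP_map]
  congr 1
  funext x
  simp [emb]

theorem deg_embL_last (L : List (Z N)) : deg (embL L) (Fin.last N) = 0 := by
  unfold deg embL
  rw [List.countP_map, List.countP_eq_zero]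
  intro x _
  simp [emb, Fin.castSucc_ne_last]

theorem good_embL {L : List (Z N)} {Lg : Finset (Fin N)} {π : Z N → ℕ} {B : ℕ}
    {π' : Z (N + 1) → ℕ} (hπ : ∀ x, π' (emb x) = π x) (h : Good L Lg π B) :
    Good (embL L) (Lg.map Fin.castSuccEmb) π' B where
  ne := by
    have := h.ne
    simpa [embL] using this
  tight := tight_embL.2 h.tight
  path := by
    rw [turns_embL]
    intro t ht
    obtain ⟨s, hs, rfl⟩ := List.mem_map.1 ht
    simp only [Prod.map_fst, Prod.map_snd, hπ]
    exact h.path s hs
  loop := by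
    intro i hi
    obtain ⟨j, hj, rfl⟩ := Finset.mem_map.1 hi
    have := h.loop j hj
    have h1 := hπ (j, true)
    have h2 := hπ (j, false)
    simp only [emb] at h1 h2
    simp only [Fin.coe_castSuccEmb, h1, h2, this]
  small := by
    intro i hi
    rcases Fin.eq_castSucc_or_eq_last i with ⟨j, rfl⟩ | rfl
    · rw [deg_embL]
      apply h.small
      intro hj
      exact hi (Finset.mem_map.2 ⟨j, hj, rfl⟩)
    · rw [deg_embL_last]; exact Nat.zero_le _

/-- automorphism of `F_N` extended to `F_{N+1}` by fixing the last letter -/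
theorem exists_extend (φ : FreeGroup (Fin N) ≃* FreeGroup (Fin N)) :
    ∃ Φ : FreeGroup (Fin (N + 1)) ≃* FreeGroup (Fin (N + 1)),
      (∀ x, Φ (embF x) = embF (φ x)) ∧ Φ (FreeGroup.of (Fin.last N)) = FreeGroup.of (Fin.last N) := by
  let F : (FreeGroup (Fin N) →* FreeGroup (Fin N)) → (FreeGroup (Fin (N + 1)) →* FreeGroup (Fin (N + 1))) :=
    fun ψ => FreeGroup.lift (fun i => if h : (i : ℕ) < N then embF (ψ (FreeGroup.of ⟨i, h⟩))
      else FreeGroup.of (Fin.last N))
  have hF : ∀ (ψ : FreeGroup (Fin N) →* FreeGroup (Fin N)) (x : FreeGroup (Fin N)),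
      F ψ (embF x) = embF (ψ x) := by
    intro ψ x
    have h : ((F ψ).comp embF : FreeGroup (Fin N) →* FreeGroup (Fin (N + 1))) = embF.comp ψ := by
      apply FreeGroup.ext_hom
      intro a
      simp [F, embF]
    exact DFunLike.congr_fun h x
  have hL : ∀ (ψ : FreeGroup (Fin N) →* FreeGroup (Fin N)),
      F ψ (FreeGroup.of (Fin.last N)) = FreeGroup.of (Fin.last N) := by
    intro ψ; simp [F]
  have hcomp : ∀ (ψ χ : FreeGroup (Fin N) →* FreeGroup (Fin N)), ψ.comp χ = MonoidHom.id _ →
      (F ψ).comp (F χ) = MonoidHom.id _ := by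
    intro ψ χ h
    apply FreeGroup.ext_hom
    intro a
    rcases Fin.eq_castSucc_or_eq_last a with ⟨j, rfl⟩ | rfl
    · have e : (FreeGroup.of j.castSucc : FreeGroup (Fin (N + 1))) = embF (FreeGroup.of j) := by
        simp [embF]
      have h' : ψ (χ (FreeGroup.of j)) = FreeGroup.of j := DFunLike.congr_fun h _
      rw [e, MonoidHom.comp_apply, hF, hF, h']
      rfl
    · rw [MonoidHom.comp_apply, hL, hL]; rfl
  refine ⟨MonoidHom.toMulEquiv (F φ.toMonoidHom) (F φ.symm.toMonoidHom) ?_ ?_, ?_, ?_⟩
  · apply hcomp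
    ext x; simp
  · apply hcomp
    ext x; simp
  · intro x
    exact hF _ x
  · exact hL _

theorem orb_embL {u : FreeGroup (Fin N)} {L : List (Z N)} (h : Orb u L) :
    Orb (embF u) (embL L) := by
  obtain ⟨φ, hφ⟩ := h
  obtain ⟨Φ, hΦ, _⟩ := exists_extend φ
  refine ⟨Φ, ?_⟩
  rw [hΦ, mk_embL]
  exact embF.map_isConj hφ

theorem embF_isConj {x y : FreeGroup (Fin N)} (h : IsConj (embF x) (embF y)) : IsConj x y := by
  have := retF.map_isConj h
  simpa [retF_embF] using this

theorem embF_isConj_iff {x y : FreeGroup (Fin N)} : IsConj (embF x) (embF y) ↔ IsConj x y :=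
  ⟨embF_isConj, fun h => embF.map_isConj h⟩

/-- the map induced by `embF` on conjugacy classes is injective -/
theorem embC_injective :
    Function.Injective (ConjClasses.map (embF : FreeGroup (Fin N) →* FreeGroup (Fin (N + 1)))) := by
  intro a b
  obtain ⟨x, rfl⟩ := ConjClasses.mk_surjective a
  obtain ⟨y, rfl⟩ := ConjClasses.mk_surjective b
  intro h
  have h' : ConjClasses.mk (embF x) = ConjClasses.mk (embF y) := h
  rw [ConjClasses.mk_eq_mk_iff_isConj] at h' ⊢
  exact embF_isConj h'

/-- `u ∈ F_r` as an element of `F_{r+m}` -/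
def uN {r : ℕ} (u : FreeGroup (Fin r)) : (m : ℕ) → FreeGroup (Fin (r + m))
  | 0 => u
  | m + 1 => embF (uN u m)

theorem uN_ne_one {r : ℕ} {u : FreeGroup (Fin r)} (hu : u ≠ 1) (m : ℕ) : uN u m ≠ 1 := by
  induction m with
  | zero => exact hu
  | succ m ih =>
    intro h
    apply ih
    apply embF_injective
    rw [map_one]
    exact h

theorem orb_uN_succ {r m : ℕ} {u : FreeGroup (Fin r)} {L : List (Z (r + m))}
    (h : Orb (uN u m) L) : Orb (uN u (m + 1)) (embL L) := orb_embL h

/-- reduced length is preserved by `embF` -/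
theorem norm_embF (x : FreeGroup (Fin N)) : (embF x).norm = x.norm := by
  have h : (embF x).toWord = embL x.toWord := by
    conv_lhs => rw [← x.mk_toWord, ← mk_embL, FreeGroup.toWord_mk]
    apply FreeGroup.IsReduced.reduce_eq
    have hr : FreeGroup.IsReduced x.toWord := FreeGroup.isReduced_toWord
    unfold FreeGroup.IsReduced at hr ⊢
    unfold embL
    rw [List.isChain_map]
    refine hr.imp ?_
    intro a b hab h
    apply hab
    simpa [emb] using h
  unfold FreeGroup.norm
  rw [h, length_embL]

theorem norm_uN {r : ℕ} (u : FreeGroup (Fin r)) (m : ℕ) : (uN u m).norm = u.norm := by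
  induction m with
  | zero => rfl
  | succ m ih => show (embF (uN u m)).norm = _; rw [norm_embF, ih]

end PW
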