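import Mathlib
import Pool.Agent.Helper192.PW.Emb
import Pool.Agent.Helper825.PW.Rot
import Pool.Agent.Helper825.PW.NS

set_option autoImplicit false

/-! Puder–Wu conjecture (MP_dab459_al): the frozen statement from the count over `F_N`. -/

open Filter FreeGroup

namespace PW

/-- the classes over `F_N` of tight nonempty lists of length `n` in the first `r` letters -/
def clsN (r : ℕ) {N : ℕ} (u : FreeGroup (Fin N)) (n : ℕ) : Set (ConjClasses (FreeGroup (Fin N))) :=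
  {c | ∃ L : List (Z N), Orb u L ∧ Tight L ∧ L ≠ [] ∧ (∀ i : Fin N, r ≤ i.val → deg L i = 0) ∧
    L.length = n ∧ ConjClasses.mk (FreeGroup.mk L) = c}

theorem not_conj_one {N : ℕ} {u : FreeGroup (Fin N)} (hu : u ≠ 1) {L : List (Z N)} (h : Orb u L) :
    L ≠ [] := by
  rintro rfl
  obtain ⟨φ, hφ⟩ := h
  rw [← FreeGroup.one_eq_mk, isConj_one_left] at hφ
  exact hu (by simpa using hφ)

theorem cls_subset {r N : ℕ} {u : FreeGroup (Fin N)} (hu : u ≠ 1) (n : ℕ) :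
    PW6.cls r u n ⊆ clsN r u n := by
  rintro c ⟨L, h1, h2, h3, h4, h5⟩
  refine ⟨L, h4, h1, not_conj_one hu h4, ?_, h2, h5⟩
  intro i hi
  unfold deg
  rw [List.countP_eq_zero]
  intro x hx
  have := h3 x hx
  simp only [decide_eq_true_eq]
  rintro rfl
  omega

theorem clsN_finite (r : ℕ) {N : ℕ} (u : FreeGroup (Fin N)) (n : ℕ) : (clsN r u n).Finite := by
  have h1 : ({l : List (PW.Z N) | l.length = n}).Finite := List.finite_length_eq _ _
  refine (h1.image fun L => ConjClasses.mk (FreeGroup.mk L)).subset ?_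
  rintro c ⟨L, -, -, -, -, h2, h3⟩
  exact ⟨L, h2, h3⟩

/-- the frozen statement S02165 from the count of conjugacy classes over `F_N` for one `N ≥ r`
(which may depend on `r`) -/
theorem last_of (Nr : ℕ → ℕ) (hNr : ∀ r, r ≤ Nr r)
    (M5 : ∀ r : ℕ, 2 ≤ r → ∀ u : FreeGroup (Fin (Nr r)), u ≠ 1 →
      (¬ ∃ i : Fin (Nr r), ∃ φ : FreeGroup (Fin (Nr r)) ≃* FreeGroup (Fin (Nr r)),
        φ (FreeGroup.of i) = u) →
      ∀ x : ℝ, Real.sqrt (2 * (r : ℝ) - 1) < x →
        ∃ K : ℝ, ∀ n : ℕ, ((clsN r u n).ncard : ℝ) ≤ K * x ^ n) :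
    ∀ r : ℕ, 2 ≤ r → ∀ u : FreeGroup (Fin r), u ≠ 1 →
      (∀ i : Fin r, ¬ ∃ φ : FreeGroup (Fin r) ≃* FreeGroup (Fin r), φ (FreeGroup.of i) = u) →
      ∀ ε : ℝ, 0 < ε →
        (∀ᶠ n : ℕ in atTop,
          ((Set.ncard {v : FreeGroup (Fin r) |
              (∃ φ : FreeGroup (Fin r) ≃* FreeGroup (Fin r), φ u = v) ∧
                (FreeGroup.toWord v).length ≤ n} : ℝ) ^ ((1 : ℝ) / (n : ℝ)))
            ≤ Real.sqrt (2 * (r : ℝ) - 1) + ε) ∧
        (∃ᶠ n : ℕ in atTop,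
          Real.sqrt (2 * (r : ℝ) - 1) - ε ≤
          ((Set.ncard {v : FreeGroup (Fin r) |
              (∃ φ : FreeGroup (Fin r) ≃* FreeGroup (Fin r), φ u = v) ∧
                (FreeGroup.toWord v).length ≤ n} : ℝ) ^ ((1 : ℝ) / (n : ℝ)))) := by
  intro r hr u hu hp ε hε
  have hu' : FreeGroup.map (Fin.castLE (hNr r)) u ≠ 1 := by
    intro h
    apply hu
    apply FreeGroup.map_injective (Fin.castLE_injective (hNr r))
    rw [h]; exact (MonoidHom.map_one _).symm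
  refine PW6.final_of hr (hNr r) u hu ?_ ε hε
  intro δ hδ
  obtain ⟨K, hK⟩ := M5 r hr (FreeGroup.map (Fin.castLE (hNr r)) u) hu' (by
    intro h
    obtain ⟨i, hi⟩ := PW6.prim_descend (hNr r) u h
    exact hp i hi) (Real.sqrt (2 * (r : ℝ) - 1) + δ) (by linarith)
  refine ⟨K, fun n => le_trans ?_ (hK n)⟩
  exact_mod_cast Set.ncard_le_ncard (cls_subset hu' n) (clsN_finite r _ n)

end PW
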